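import Pool.Agent.Helper227_Sch.Main

/-!
# Exceptional points of the torus inside one field: counting them by degrees

`G = 𝔾ₘ`, `Lie G = ℂ`, `exp_G r = e ^ r`, with the period `2πi`.  Let `F` be a subfield of `ℂ`,
`L ≠ 0` any complex number and `D, T` positive integers.  Let `Z` be the set of all `z` in `F` such
that `e ^ (L z)` lies in `F`, `[F : ℚ(z)] ≤ D` and `[F : ℚ(e ^ (L z))] ≤ T`.  If `Z` is not empty, `F` has
transcendence degree at most one.  If `L = 1` and `F` contains `2πi`, then all members `z` of `Z` are
failures of the relative conjecture: `z` and `e ^ z` are algebraic over `ℚ(2πi)` and `e ^ z` is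
transcendental.

We prove that `Z` has at most `(2 T + 1) ^ (8 D - 2)` elements, and at most `(2 T + 1) ^ (4 D)` elements
if `L` is algebraic over `F` (for example for `L = 1`), up to the addition of numbers `l` for which
`e ^ (L l)` is algebraic.  In particular `Z` is finite if `0` is the only such `l` in `F`.  The bound
does not depend on `F` and, for given `D`, it is polynomial in `T`.  Part (B) of the starting file
`TorusSubspaces` bounds the rank of the group generated by `Z` in the case `L = 1` (by `4 D`).

Proof.  By the linear subgroup theorem in transcendence degree one (`deg_1`, `deg_L` of the starting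
file `Pool/Agent/W243/TD/Deg.lean`) the group `A` generated by `Z` has rank at most `8 D - 2`, or
`4 D`.  If two members `z`, `w` of `Z` are congruent modulo `(2 T + 1) A`, then
`e ^ (L z) = u ^ (2 T + 1) e ^ (L w)` with `u = e ^ (L a)` in `F`, `a` in `A`.  If `u` is transcendental,
a place of `F` with `u = 0` shows that the degree of `e ^ (L z)` or of `e ^ (L w)` is larger than `T`.
So `u` is algebraic and `e ^ (L (z - w))` is algebraic.
-/

set_option autoImplicit false

namespace Pool.Agent.Results.MP_4aec10_nt.PointsInOneField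

open Pool.Agent.Helper227_Sch

/-- **Counting the failures in one field.** -/
theorem result (L : ℂ) (hL : L ≠ 0) (F : IntermediateField ℚ ℂ) (D T : ℕ) (hD : 1 ≤ D) :
    ((QuotientAddGroup.mk : ℂ → ℂ ⧸ logs L) '' pts L F D T).encard ≤
      (((2 * T + 1) ^ (8 * D - 2) : ℕ) : ℕ∞) ∧
    (IsAlgebraic F L → ((QuotientAddGroup.mk : ℂ → ℂ ⧸ logs L) '' pts L F D T).encard ≤
      (((2 * T + 1) ^ (4 * D) : ℕ) : ℕ∞)) ∧
    ((∀ l ∈ F, l ∈ logs L → l = 0) →
      (pts L F D T).encard ≤ (((2 * T + 1) ^ (8 * D - 2) : ℕ) : ℕ∞) ∧
      (IsAlgebraic F L → (pts L F D T).encard ≤ (((2 * T + 1) ^ (4 * D) : ℕ) : ℕ∞))) := by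
  refine ⟨mainL hL F D T, fun h => main1 hL F h D T, fun hF => ?_⟩
  rw [← (mk_injOn hF D T).encard_image]
  exact ⟨mainL hL F D T, fun h => main1 hL F h D T⟩

end Pool.Agent.Results.MP_4aec10_nt.PointsInOneField
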